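import Pool.Agent.H27.TM.TargetsL

/-!
# Row MJ: majorants with smooth Fourier transforms with small support
-/

set_option autoImplicit false

open MeasureTheory Set Filter Complex
open scoped FourierTransform Convolution SchwartzMap ContDiff

namespace Pool.Agent.H52.TM

open Pool.Agent.H27.TM
open Pool.Agent.H29.DW (dg Rl)
open Pool.Agent.H31.SW (EE Pf)

/-- the bump function -/
noncomputable def gb : ContDiffBump (0 : ℝ) := ⟨1 / 80000, 1 / 40000, by norm_num, by norm_num⟩

/-- the second bump function -/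
noncomputable def gd : ContDiffBump (0 : ℝ) := ⟨1 / 40000, 1 / 20000, by norm_num, by norm_num⟩

noncomputable def gc (x : ℝ) : ℂ := ((gb x : ℝ) : ℂ)

theorem gc_cs : HasCompactSupport gc :=
  gb.hasCompactSupport.comp_left (g := fun x : ℝ => (x : ℂ)) (by simp)

theorem gc_smooth : ContDiff ℝ ∞ gc := Complex.ofRealCLM.contDiff.comp gb.contDiff

noncomputable def gS : 𝓢(ℝ, ℂ) := gc_cs.toSchwartzMap gc_smooth

noncomputable def hS : 𝓢(ℝ, ℂ) := SchwartzMap.convolution (ContinuousLinearMap.mul ℂ ℂ) gS gS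

theorem gS_apply (x : ℝ) : gS x = ((gb x : ℝ) : ℂ) := rfl

theorem gb_zero {x : ℝ} (hx : 1 / 40000 < |x|) : gb x = 0 := by
  apply gb.zero_of_le_dist
  rw [Real.dist_0_eq_abs]
  exact hx.le

theorem hS_zero {u : ℝ} (hu : 1 / 20000 < |u|) : hS u = 0 := by
  unfold hS
  rw [SchwartzMap.convolution_apply, convolution_def]
  have h : ∀ t : ℝ, (ContinuousLinearMap.mul ℂ ℂ) (gS t) (gS (u - t)) = 0 := by
    intro t
    rcases lt_or_ge (1 / 40000) |t| with ht | ht
    · rw [gS_apply, gb_zero ht]
      simp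
    · have h2 : 1 / 40000 < |u - t| := by
        have h3 : |u| ≤ |u - t| + |t| := by
          have := abs_add_le (u - t) t
          simpa using this
        linarith
      rw [gS_apply (u - t), gb_zero h2]
      simp
  simp only [h, integral_zero]

theorem four_hS (w : ℝ) : 𝓕 hS w = (𝓕 gS w) ^ 2 := by
  unfold hS
  rw [SchwartzMap.fourier_convolution]
  rw [SchwartzMap.pairing_apply_apply, ContinuousLinearMap.mul_apply', sq]

theorem four_gS (w : ℝ) : 𝓕 gS w = ∫ v : ℝ, cexp (((-2 * Real.pi * (v * w) : ℝ) : ℂ) * I) * gS v := by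
  rw [SchwartzMap.fourier_coe, Real.fourier_eq']
  refine integral_congr_ae (ae_of_all _ fun v => ?_)
  simp only [smul_eq_mul]
  congr 3
  simp [mul_comm]

theorem four_gS_real (w : ℝ) : 𝓕 gS w = (((𝓕 gS w).re : ℝ) : ℂ) := by
  symm
  rw [← Complex.conj_eq_iff_re]
  rw [four_gS, ← integral_conj]
  have h1 : ∀ v : ℝ, (starRingEnd ℂ) (cexp (((-2 * Real.pi * (v * w) : ℝ) : ℂ) * I) * gS v) =
      (fun v : ℝ => cexp (((-2 * Real.pi * (v * w) : ℝ) : ℂ) * I) * gS v) (-v) := by
    intro v
    simp only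
    rw [map_mul, ← Complex.exp_conj, map_mul, Complex.conj_ofReal, Complex.conj_I, gS_apply,
      Complex.conj_ofReal, gS_apply, ContDiffBump.neg]
    congr 2
    push_cast
    ring
  rw [integral_congr_ae (ae_of_all _ h1)]
  exact integral_neg_eq_self (fun v : ℝ => cexp (((-2 * Real.pi * (v * w) : ℝ) : ℂ) * I) * gS v)
    volume

/-- the mass -/
noncomputable def mA : ℝ := ∫ x, gb x

theorem mA_pos : 0 < mA := gb.integral_pos

/-- the majorant on the line -/
noncomputable def ph (x : ℝ) : ℝ := 4 / mA ^ 2 * ((𝓕 gS (x / (2 * Real.pi))).re) ^ 2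

theorem ph_nonneg (x : ℝ) : 0 ≤ ph x := by
  unfold ph
  positivity

theorem ph_coe (x : ℝ) : ((ph x : ℝ) : ℂ) = ((4 / mA ^ 2 : ℝ) : ℂ) * 𝓕 hS (x / (2 * Real.pi)) := by
  unfold ph
  rw [four_hS, four_gS_real]
  push_cast
  simp

theorem re_four_gS (w : ℝ) :
    (𝓕 gS w).re = ∫ v : ℝ, Real.cos (2 * Real.pi * (v * w)) * gb v := by
  rw [four_gS]
  have hi : Integrable (fun v : ℝ => cexp (((-2 * Real.pi * (v * w) : ℝ) : ℂ) * I) * gS v) := by
    refine (gS.integrable (μ := volume)).bdd_mul (c := 1) ?_ ?_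
    · exact Continuous.aestronglyMeasurable (by fun_prop)
    · exact ae_of_all _ fun v => by rw [Complex.norm_exp_ofReal_mul_I]
  have h := integral_re hi
  simp only [RCLike.re_to_complex] at h
  rw [← h]
  refine integral_congr_ae (ae_of_all _ fun v => ?_)
  simp only
  rw [gS_apply, Complex.re_mul_ofReal, Complex.exp_ofReal_mul_I_re]
  congr 1
  rw [show -2 * Real.pi * (v * w) = -(2 * Real.pi * (v * w)) by ring, Real.cos_neg]

theorem ph_one {x : ℝ} (hx : |x| ≤ 3) : 1 ≤ ph x := by
  have h1 : mA / 2 ≤ (𝓕 gS (x / (2 * Real.pi))).re := by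
    rw [re_four_gS]
    have h2 : mA / 2 = ∫ v : ℝ, 1 / 2 * gb v := by
      rw [MeasureTheory.integral_const_mul]
      unfold mA
      ring
    rw [h2]
    refine integral_mono (gb.integrable.const_mul _) ?_ fun v => ?_
    · refine gb.integrable.bdd_mul (c := 1) ?_ ?_
      · exact Continuous.aestronglyMeasurable (by fun_prop)
      · exact ae_of_all _ fun v => Real.abs_cos_le_one _
    · rcases lt_or_ge (1 / 40000) |v| with hv | hv
      · simp only
        rw [gb_zero hv]
        simp
      · simp only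
        have h3 : 2 * Real.pi * (v * (x / (2 * Real.pi))) = v * x := by
          have := Real.pi_pos
          field_simp
        rw [h3]
        have h4 := Real.one_sub_sq_div_two_le_cos (x := v * x)
        have h5 : |v * x| ≤ 1 := by
          rw [abs_mul]
          calc |v| * |x| ≤ 1 / 40000 * 3 := by gcongr
            _ ≤ 1 := by norm_num
        have h6 : (v * x) ^ 2 ≤ 1 := by
          rw [← sq_abs]
          exact pow_le_one₀ (abs_nonneg _) h5
        have h7 : 0 ≤ gb v := gb.nonneg
        apply mul_le_mul_of_nonneg_right _ h7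
        linarith
  unfold ph
  have hA := mA_pos
  have h2 : (mA / 2) ^ 2 ≤ (𝓕 gS (x / (2 * Real.pi))).re ^ 2 := by gcongr
  calc (1 : ℝ) = 4 / mA ^ 2 * (mA / 2) ^ 2 := by
        field_simp
        norm_num
    _ ≤ _ := by gcongr

theorem ph_cont : Continuous ph := by
  unfold ph
  have : Continuous (fun x : ℝ => (𝓕 gS) x) := (𝓕 gS).continuous
  fun_prop

theorem ph_int : Integrable ph := by
  have h1 : Integrable (fun x : ℝ => 𝓕 hS (x / (2 * Real.pi))) :=
    ((𝓕 hS).integrable (μ := volume)).comp_div (by positivity)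
  have h2 : Integrable (fun x : ℝ => ((ph x : ℝ) : ℂ)) := by
    simp only [ph_coe]
    exact h1.const_mul _
  have h3 := h2.re
  simpa using h3

/-- the Fourier transform of the majorant -/
noncomputable def ps (z : ℝ) : ℂ := ((8 * Real.pi / mA ^ 2 : ℝ) : ℂ) * hS (-z)

theorem four_four (z : ℝ) : 𝓕 (𝓕 hS) z = hS (-z) := by
  have h1 : 𝓕⁻ (𝓕 hS) = hS := FourierTransform.fourierInv_fourier_eq hS
  have h2 : (𝓕⁻ (𝓕 hS)) (-z) = 𝓕 (𝓕 hS) z := by
    rw [SchwartzMap.fourierInv_coe, Real.fourierInv_eq_fourier_neg, neg_neg]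
    rfl
  rw [← h2, h1]

theorem ph_four (z : ℝ) : ∫ x : ℝ, ((ph x : ℝ) : ℂ) * cexp (((-(x * z) : ℝ) : ℂ) * I) = ps z := by
  set F : ℝ → ℂ := fun y : ℝ => ((4 / mA ^ 2 : ℝ) : ℂ) *
    (cexp (((-2 * Real.pi * (y * z) : ℝ) : ℂ) * I) * 𝓕 hS y) with hF
  have h1 : ∀ x : ℝ, ((ph x : ℝ) : ℂ) * cexp (((-(x * z) : ℝ) : ℂ) * I) =
      F (x / (2 * Real.pi)) := by
    intro x
    simp only [hF]
    rw [ph_coe]
    have h2 : -2 * Real.pi * (x / (2 * Real.pi) * z) = -(x * z) := by
      have := Real.pi_pos
      field_simp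
    rw [h2]
    ring
  rw [integral_congr_ae (ae_of_all _ h1), Measure.integral_comp_div F (2 * Real.pi), hF,
    MeasureTheory.integral_const_mul]
  have h3 : ∫ y : ℝ, cexp (((-2 * Real.pi * (y * z) : ℝ) : ℂ) * I) * 𝓕 hS y = 𝓕 (𝓕 hS) z := by
    rw [SchwartzMap.fourier_coe (𝓕 hS), Real.fourier_eq']
    refine integral_congr_ae (ae_of_all _ fun v => ?_)
    simp only [smul_eq_mul]
    congr 3
    simp [mul_comm]
  rw [h3, four_four]
  unfold ps
  rw [abs_of_pos (by positivity), Complex.real_smul]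
  push_cast
  ring

theorem ph_four_G {G : ℝ} (hG : 0 < G) (z : ℝ) :
    ∫ x : ℝ, ((ph (x / G) : ℝ) : ℂ) * cexp (((-(x * z) : ℝ) : ℂ) * I) = (G : ℂ) * ps (G * z) := by
  set F : ℝ → ℂ := fun y : ℝ => ((ph y : ℝ) : ℂ) * cexp (((-(y * (G * z)) : ℝ) : ℂ) * I) with hF
  have h1 : ∀ x : ℝ, ((ph (x / G) : ℝ) : ℂ) * cexp (((-(x * z) : ℝ) : ℂ) * I) = F (x / G) := by
    intro x
    simp only [hF]
    congr 4
    field_simp
  rw [integral_congr_ae (ae_of_all _ h1), Measure.integral_comp_div F G, hF, ph_four,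
    abs_of_pos hG, Complex.real_smul]

theorem ps_smooth (n : ℕ) : ContDiff ℝ n ps := by
  unfold ps
  have h : ContDiff ℝ n hS := hS.smooth n
  exact contDiff_const.mul (h.comp contDiff_neg)

theorem ps_zero {u : ℝ} (hu : 1 / 20000 < |u|) : ps u = 0 := by
  unfold ps
  rw [hS_zero (by rwa [abs_neg]), mul_zero]

/-! ### The plane -/

theorem int_re_im (f₁ f₂ : ℝ → ℂ) :
    ∫ c : ℂ, f₁ c.re * f₂ c.im = (∫ x, f₁ x) * ∫ y, f₂ y := by
  have h := Complex.volume_preserving_equiv_real_prod.integral_comp'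
    (g := fun p : ℝ × ℝ => f₁ p.1 * f₂ p.2)
  rw [← integral_prod_mul f₁ f₂]
  exact h

theorem integrable_re_im {f₁ f₂ : ℝ → ℝ} (h₁ : Integrable f₁) (h₂ : Integrable f₂) :
    Integrable (fun c : ℂ => f₁ c.re * f₂ c.im) := by
  have h := (Complex.volume_preserving_equiv_real_prod).integrable_comp_emb
    (Complex.measurableEquivRealProd.measurableEmbedding)
    (g := fun p : ℝ × ℝ => f₁ p.1 * f₂ p.2)
  exact h.2 (h₁.mul_prod h₂)

/-- the second factor -/
noncomputable def sec (r : Bool) (G y : ℝ) : ℝ :=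
  if r then (Icc (-(1 / 2) : ℝ) (1 / 2)).indicator (fun _ => 1) y else ph (y / G)

theorem sec_nonneg (r : Bool) (G y : ℝ) : 0 ≤ sec r G y := by
  unfold sec
  split_ifs
  · exact indicator_nonneg (fun _ _ => zero_le_one) y
  · exact ph_nonneg _

theorem sec_int (r : Bool) {G : ℝ} (hG : 0 < G) : Integrable (sec r G) := by
  cases r
  · have : sec false G = fun y => ph (y / G) := by
      funext y
      simp [sec]
    rw [this]
    exact ph_int.comp_div hG.ne'
  · have : sec true G = (Icc (-(1 / 2) : ℝ) (1 / 2)).indicator (fun _ => 1) := by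
      funext y
      simp [sec]
    rw [this]
    exact (integrable_indicator_iff measurableSet_Icc).2 (integrableOn_const (by simp))

/-- the majorant -/
noncomputable def Ph (r : Bool) (G : ℝ) (c : ℂ) : ℝ := ph (c.re / G) * sec r G c.im

/-- its Fourier transform -/
noncomputable def Ps (r : Bool) (z : ℂ) : ℂ :=
  ps z.re * (if r then ((gd z.im : ℝ) : ℂ) else ps (-z.im))

theorem pf_MJ : M_MJ := by
  refine ⟨Ph, Ps, 1, one_pos, ?_⟩
  constructor
  · constructor
    · intro r n
      have h1 : ContDiff ℝ n (fun z : ℂ => ps z.re) :=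
        (ps_smooth n).comp Complex.reCLM.contDiff
      cases r
      · have h2 : ContDiff ℝ n (fun z : ℂ => ps (-z.im)) :=
          (ps_smooth n).comp (Complex.imCLM.contDiff.neg)
        have h3 := h1.mul h2
        have h4 : Ps false = fun z : ℂ => ps z.re * ps (-z.im) := by
          funext z
          simp [Ps]
        rw [h4]
        exact h3
      · have h2 : ContDiff ℝ n (fun z : ℂ => ((gd z.im : ℝ) : ℂ)) :=
          Complex.ofRealCLM.contDiff.comp (gd.contDiff.comp Complex.imCLM.contDiff)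
        have h3 := h1.mul h2
        have h4 : Ps true = fun z : ℂ => ps z.re * ((gd z.im : ℝ) : ℂ) := by
          funext z
          simp [Ps]
        rw [h4]
        exact h3
    · intro r z hz
      have h1 := Complex.norm_le_abs_re_add_abs_im z
      unfold Ps
      rcases lt_or_ge (1 / 20000) |z.re| with h | h
      · rw [ps_zero h, zero_mul]
      · have h2 : 1 / 20000 < |z.im| := by linarith
        cases r
        · simp only [Bool.false_eq_true, if_false]
          rw [ps_zero (u := -z.im) (by rwa [abs_neg]), mul_zero]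
        · simp only [if_true]
          have h3 : gd z.im = 0 := by
            apply gd.zero_of_le_dist
            rw [Real.dist_0_eq_abs]
            exact h2.le
          rw [h3]
          simp
  · intro r G c
    exact mul_nonneg (ph_nonneg _) (sec_nonneg _ _ _)
  · intro r G c hG h1 h2
    have hG0 : 0 < G := by linarith
    have h3 : 1 ≤ ph (c.re / G) := by
      apply ph_one
      rw [abs_div, abs_of_pos hG0, div_le_iff₀ hG0]
      exact h1
    have h4 : 1 ≤ sec r G c.im := by
      unfold sec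
      cases r
      · simp only [Bool.false_eq_true, if_false] at h2 ⊢
        apply ph_one
        rw [abs_div, abs_of_pos hG0, div_le_iff₀ hG0]
        exact h2
      · simp only [if_true] at h2 ⊢
        rw [indicator_of_mem (by
          rw [mem_Icc]
          exact abs_le.1 h2)]
    unfold Ph
    nlinarith [mul_le_mul h3 h4 zero_le_one (by linarith : (0 : ℝ) ≤ ph (c.re / G))]
  · intro r G hG
    have hG0 : 0 < G := by linarith
    exact integrable_re_im (ph_int.comp_div hG0.ne') (sec_int r hG0)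
  · intro r G z hG hz
    have hG0 : 0 < G := by linarith
    set f₁ : ℝ → ℂ := fun x : ℝ => ((ph (x / G) : ℝ) : ℂ) *
      cexp (((-(x * z.re) : ℝ) : ℂ) * I) with hf₁
    set f₂ : ℝ → ℂ := fun y : ℝ => ((sec r G y : ℝ) : ℂ) *
      cexp (((-(y * -z.im) : ℝ) : ℂ) * I) with hf₂
    have h1 : ∀ c : ℂ, (Ph r G c : ℂ) * EE (c * z) = f₁ c.re * f₂ c.im := by
      intro c
      simp only [hf₁, hf₂]
      unfold Ph EE
      rw [Complex.mul_re]
      push_cast
      have h2 : cexp (-((c.re : ℂ) * z.re - c.im * z.im) * I) =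
          cexp (-((c.re : ℂ) * z.re) * I) * cexp (-((c.im : ℂ) * -z.im) * I) := by
        rw [← Complex.exp_add]
        congr 1
        ring
      rw [h2]
      ring
    rw [integral_congr_ae (ae_of_all _ h1), int_re_im f₁ f₂, hf₁, hf₂, ph_four_G hG0]
    cases r
    · have h2 : ∀ y : ℝ, ((sec false G y : ℝ) : ℂ) * cexp (((-(y * -z.im) : ℝ) : ℂ) * I) =
          ((ph (y / G) : ℝ) : ℂ) * cexp (((-(y * -z.im) : ℝ) : ℂ) * I) := by
        intro y
        simp [sec]
      rw [integral_congr_ae (ae_of_all _ h2), ph_four_G hG0]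
      unfold Ps
      have e1 : ((G : ℂ) * z).re = G * z.re := by simp
      have e2 : ((G : ℂ) * z).im = G * z.im := by simp
      rw [e1, e2]
      simp only [Bool.false_eq_true, if_false, dg]
      rw [show G * -z.im = -(G * z.im) by ring]
      push_cast
      ring
    · have hz0 : z.im = 0 := hz rfl
      have h2 : ∀ y : ℝ, ((sec true G y : ℝ) : ℂ) * cexp (((-(y * -z.im) : ℝ) : ℂ) * I) =
          (Icc (-(1 / 2) : ℝ) (1 / 2)).indicator (fun _ => (1 : ℂ)) y := by
        intro y
        rw [hz0]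
        by_cases hy : y ∈ Icc (-(1 / 2) : ℝ) (1 / 2)
        · rw [indicator_of_mem hy]
          simp only [sec, if_true]
          rw [indicator_of_mem hy]
          simp
        · rw [indicator_of_notMem hy]
          simp only [sec, if_true]
          rw [indicator_of_notMem hy]
          simp
      rw [integral_congr_ae (ae_of_all _ h2), integral_indicator measurableSet_Icc]
      unfold Ps
      have e1 : ((G : ℂ) * z).re = G * z.re := by simp
      have e2 : ((G : ℂ) * z).im = 0 := by simp [hz0]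
      have e3 : gd (0 : ℝ) = 1 := by
        apply gd.one_of_mem_closedBall
        simp [gd.rIn_pos.le]
      rw [e1, e2, e3]
      simp only [if_true, dg]
      simp
      norm_num

end Pool.Agent.H52.TM
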